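import Pool.Agent.H87.NN.Lift

/-!
# The 2-neighbour graphs on `ℤ^d` percolate in every dimension

Every vertex of `ℤ^d` picks a uniformly random `k`-element subset of its `2d` nearest neighbours,
independently. For `k = 2` and every `d ≥ 1`, with positive probability the origin starts an
infinite self-avoiding directed path of picks, and so does it for the undirected graph.
The proof is in `Pool/Agent/H87/NN`.
-/

open Finset MeasureTheory ENNReal

namespace Pool.Agent.Results.MP_e2dabb_pr.AllDimensions

/-- the points of `ℤ^d` -/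
abbrev Site (d : ℕ) := Fin d → ℤ

/-- the `2d` directions: a coordinate and a sign (`true` is `+`) -/
abbrev Dir (d : ℕ) := Fin d × Bool

/-- the nearest neighbour of `x` in direction `e`: the coordinate `e.1` is changed by `±1` -/
def nbr {d : ℕ} (x : Site d) (e : Dir d) : Site d :=
  Function.update x e.1 (if e.2 then x e.1 + 1 else x e.1 - 1)

theorem powersetCard_nonempty {k d : ℕ} (h : k ≤ 2 * d) :
    (Finset.powersetCard k (Finset.univ : Finset (Dir d))).Nonempty := by
  rw [Finset.powersetCard_nonempty]
  simpa [mul_comm] using h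

/-- the law of the set of directions picked by one vertex: uniform among the sets of directions
with `k` elements -/
noncomputable def pick (k d : ℕ) (h : k ≤ 2 * d) : PMF (Finset (Dir d)) :=
  PMF.uniformOfFinset (Finset.powersetCard k Finset.univ) (powersetCard_nonempty h)

/-- the law of all picks `ω`, `ω x` being the set of directions picked by the vertex `x`: the
product measure, i.e. the picks of different vertices are independent -/
noncomputable def law (k d : ℕ) (h : k ≤ 2 * d) : Measure (Site d → Finset (Dir d)) :=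
  Measure.infinitePi fun _ : Site d => (pick k d h).toMeasure

/-- the origin starts an infinite self-avoiding directed path of the directed graph: `γ (n + 1)`
is a neighbour picked by `γ n` -/
def evD (d : ℕ) : Set (Site d → Finset (Dir d)) :=
  {ω | ∃ γ : ℕ → Site d, Function.Injective γ ∧ γ 0 = 0 ∧
    ∀ n, ∃ e ∈ ω (γ n), γ (n + 1) = nbr (γ n) e}

/-- the origin starts an infinite self-avoiding path of the undirected graph: `γ (n + 1)` is a
neighbour picked by `γ n`, or `γ n` is a neighbour picked by `γ (n + 1)` -/
def evU (d : ℕ) : Set (Site d → Finset (Dir d)) :=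
  {ω | ∃ γ : ℕ → Site d, Function.Injective γ ∧ γ 0 = 0 ∧
    ∀ n, (∃ e ∈ ω (γ n), γ (n + 1) = nbr (γ n) e) ∨
      (∃ e ∈ ω (γ (n + 1)), γ n = nbr (γ (n + 1)) e)}

/-- `θ^D(k,d)` -/
noncomputable def thetaD (k d : ℕ) (h : k ≤ 2 * d) : ℝ≥0∞ := law k d h (evD d)

/-- `θ^U(k,d)` -/
noncomputable def thetaU (k d : ℕ) (h : k ≤ 2 * d) : ℝ≥0∞ := law k d h (evU d)

/-- For every `d ≥ 1` both percolation events are measurable, and
`θ^D(2,d) > 0` and `θ^U(2,d) > 0`. -/
theorem result (d : ℕ) (hd : 1 ≤ d) :
    (MeasurableSet (evD d) ∧ MeasurableSet (evU d)) ∧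
      0 < thetaD 2 d (by omega) ∧ 0 < thetaU 2 d (by omega) :=
  ⟨⟨TwoNbr.measurableSet_evD d, TwoNbr.measurableSet_evU d⟩,
    TwoNbr.thetaD_pos hd, TwoNbr.thetaU_pos hd⟩

end Pool.Agent.Results.MP_e2dabb_pr.AllDimensions
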